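import Pool.Agent.H84.FD.S

/-! MP_1f2761, board fd, row PHI: second moment over `y` of `phi`. -/

namespace Pool.FD
open Finset Pool.K2 MeasureTheory

namespace Phi25

theorem ex_eq (t : ℝ) : ex t = ((Real.cos (2 * Real.pi * t) : ℝ) : ℂ) +
    ((Real.sin (2 * Real.pi * t) : ℝ) : ℂ) * Complex.I := by
  unfold ex
  have h : (2 * (Real.pi : ℂ) * (t : ℂ) * Complex.I) =
      (((2 * Real.pi * t : ℝ) : ℂ)) * Complex.I := by push_cast; ring
  rw [h, Complex.exp_mul_I, Complex.ofReal_cos, Complex.ofReal_sin]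

theorem normsq_sum {ι : Type} (S : Finset ι) (w t : ι → ℝ) :
    ‖∑ i ∈ S, (w i : ℂ) * ex (t i)‖ ^ 2 =
      ∑ i ∈ S, ∑ j ∈ S, w i * w j * Real.cos (2 * Real.pi * (t i - t j)) := by
  have h1 : ∑ i ∈ S, (w i : ℂ) * ex (t i) =
      ((∑ i ∈ S, w i * Real.cos (2 * Real.pi * t i) : ℝ) : ℂ) +
        ((∑ i ∈ S, w i * Real.sin (2 * Real.pi * t i) : ℝ) : ℂ) * Complex.I := by
    push_cast
    rw [Finset.sum_mul, ← Finset.sum_add_distrib]
    refine Finset.sum_congr rfl fun i _ => ?_
    rw [ex_eq]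
    push_cast
    ring
  rw [h1, ← Complex.normSq_eq_norm_sq, Complex.normSq_add_mul_I, sq, sq,
    Finset.sum_mul_sum, Finset.sum_mul_sum, ← Finset.sum_add_distrib]
  refine Finset.sum_congr rfl fun i _ => ?_
  rw [← Finset.sum_add_distrib]
  refine Finset.sum_congr rfl fun j _ => ?_
  have h2 : 2 * Real.pi * (t i - t j) = 2 * Real.pi * t i - 2 * Real.pi * t j := by ring
  rw [h2, Real.cos_sub]
  ring

theorem int_cos (X : ℝ) :
    ∫ y in (0:ℝ)..1, Real.cos (2 * Real.pi * (y * X)) ≤ 1 / max 1 |X| := by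
  have hpos : (0:ℝ) < max 1 |X| := lt_of_lt_of_le one_pos (le_max_left _ _)
  rcases le_or_gt |X| 1 with hX | hX
  · rw [max_eq_left hX]
    have h1 : ∫ y in (0:ℝ)..1, Real.cos (2 * Real.pi * (y * X)) ≤ ∫ y in (0:ℝ)..1, (1:ℝ) := by
      apply intervalIntegral.integral_mono_on zero_le_one
      · exact (Continuous.intervalIntegrable (by fun_prop) _ _)
      · exact (Continuous.intervalIntegrable (by fun_prop) _ _)
      · intro y _
        exact Real.cos_le_one _
    simpa using h1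
  · rw [max_eq_right hX.le]
    have hX0 : X ≠ 0 := by
      rintro rfl
      simp at hX
      linarith
    have hpi := Real.pi_pos
    have hc : (2 * Real.pi * X) ≠ 0 := by
      refine mul_ne_zero (by positivity) hX0
    have h2 : ∫ y in (0:ℝ)..1, Real.cos (2 * Real.pi * (y * X)) =
        Real.sin (2 * Real.pi * X) / (2 * Real.pi * X) := by
      have h3 : (fun y : ℝ => Real.cos (2 * Real.pi * (y * X))) =
          fun y : ℝ => Real.cos ((2 * Real.pi * X) * y) := by
        funext y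
        congr 1
        ring
      rw [h3, intervalIntegral.integral_comp_mul_left (fun z => Real.cos z) hc]
      simp only [integral_cos, smul_eq_mul, mul_one, mul_zero, Real.sin_zero, sub_zero]
      field_simp
    rw [h2]
    have h4 : Real.sin (2 * Real.pi * X) / (2 * Real.pi * X) ≤
        |Real.sin (2 * Real.pi * X) / (2 * Real.pi * X)| := le_abs_self _
    refine h4.trans ?_
    rw [abs_div, abs_mul, abs_of_pos (show (0:ℝ) < 2 * Real.pi by positivity)]
    have hXp : 0 < |X| := abs_pos.mpr hX0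
    rw [div_le_div_iff₀ (by positivity) hXp]
    have h5 : |Real.sin (2 * Real.pi * X)| ≤ 1 := Real.abs_sin_le_one _
    have h6 : (1:ℝ) ≤ 2 * Real.pi := by
      have := Real.pi_gt_three
      linarith
    nlinarith

theorem mean_sq {ι : Type} (S : Finset ι) (w t : ι → ℝ) (hw : ∀ i, 0 ≤ w i) :
    ∫ y in (0:ℝ)..1, ‖∑ i ∈ S, (w i : ℂ) * ex (y * t i)‖ ^ 2 ≤
      ∑ i ∈ S, ∑ j ∈ S, w i * w j / max 1 |t i - t j| := by
  have h1 : (fun y : ℝ => ‖∑ i ∈ S, (w i : ℂ) * ex (y * t i)‖ ^ 2) =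
      fun y : ℝ => ∑ i ∈ S, ∑ j ∈ S, w i * w j * Real.cos (2 * Real.pi * (y * (t i - t j))) := by
    funext y
    rw [normsq_sum S w (fun i => y * t i)]
    refine Finset.sum_congr rfl fun i _ => Finset.sum_congr rfl fun j _ => ?_
    congr 2
    ring
  rw [h1, intervalIntegral.integral_finsetSum (fun i _ =>
    (Continuous.intervalIntegrable (by fun_prop) _ _))]
  refine Finset.sum_le_sum fun i _ => ?_
  rw [intervalIntegral.integral_finsetSum (fun j _ =>
    (Continuous.intervalIntegrable (by fun_prop) _ _))]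
  refine Finset.sum_le_sum fun j _ => ?_
  rw [intervalIntegral.integral_const_mul]
  have h2 := int_cos (t i - t j)
  have h3 : 0 ≤ w i * w j := mul_nonneg (hw i) (hw j)
  calc w i * w j * ∫ y in (0:ℝ)..1, Real.cos (2 * Real.pi * (y * (t i - t j)))
      ≤ w i * w j * (1 / max 1 |t i - t j|) := mul_le_mul_of_nonneg_left h2 h3
    _ = w i * w j / max 1 |t i - t j| := by ring

end Phi25

theorem phi_row : PHIStmt := by
  intro r p hp t1 t2
  have h := Phi25.mean_sq (range (2 ^ r) ×ˢ range (2 ^ r)) (fun i : ℕ × ℕ => p i.1 i.2)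
    (fun i : ℕ × ℕ => i.1 * t1 + i.2 * t2) (fun i => hp _ _)
  have h1 : (fun y : ℝ => ‖phi r p (y * t1) (y * t2)‖ ^ 2) =
      fun y : ℝ => ‖∑ i ∈ range (2 ^ r) ×ˢ range (2 ^ r),
        ((p i.1 i.2 : ℝ) : ℂ) * ex (y * (i.1 * t1 + i.2 * t2))‖ ^ 2 := by
    funext y
    unfold phi
    rw [Finset.sum_product]
    congr 2
    refine Finset.sum_congr rfl fun n _ => Finset.sum_congr rfl fun a _ => ?_
    congr 2
    ring
  rw [h1]
  refine h.trans (le_of_eq ?_)
  rw [Finset.sum_product]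
  refine Finset.sum_congr rfl fun n _ => Finset.sum_congr rfl fun a _ => ?_
  rw [Finset.sum_product]
  refine Finset.sum_congr rfl fun n' _ => Finset.sum_congr rfl fun a' _ => ?_
  congr 3
  ring

end Pool.FD
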