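import Pool.Agent.H84.FD.S2

/-! MP_1f2761, board fd, row PRH: `PairH` from the pair lemma of helper7. -/

namespace Pool.FD
open Finset Pool.K2 MeasureTheory Pool.Agent.H24.FD

namespace Prh25

/-- the mantissa as a function of the real exponent -/
noncomputable def ym (th x : ℝ) : ℝ := Real.exp (-(Real.log 2 / th) * (⌈x⌉ - x))

/-- the pair lemma, uniform in the starting phases -/
def PairU (th1 th2 : ℝ) : Prop := ∃ C : ℝ, ∀ w : ℕ, 1 ≤ w → ∀ A B : ℝ, ∀ eps > 0, ∃ T0 : ℕ,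
  ∀ T ≥ T0, ∀ be1 be2 : ℝ,
  ‖∑ j ∈ range T, ex (A * ym th1 (be1 + j * w * th1) + B * ym th2 (be2 + j * w * th2))‖ ≤
    (C * (max 1 (max |A| |B|)) ^ (-(1/2:ℝ)) + eps) * T

def PairUStmt : Prop := ∀ th1 th2 : ℝ, 0 < th1 → 0 < th2 → Irrational th1 → Irrational th2 →
  Irrational (th1 / th2) → PairU th1 th2

/-- `log 2 / log q` -/
noncomputable def tht (q : ℕ) : ℝ := Real.log 2 / Real.log q

theorem tht_pos {q : ℕ} (hq : 2 ≤ q) : 0 < tht q := by
  unfold tht
  have h1 : (1:ℝ) < q := by exact_mod_cast hq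
  exact div_pos (Real.log_pos (by norm_num)) (Real.log_pos h1)

/-- logarithms of distinct primes have irrational ratio -/
theorem irr_log {p q : ℕ} (hp : p.Prime) (hq : q.Prime) (hne : p ≠ q) :
    Irrational (Real.log p / Real.log q) := by
  have hlp : 0 < Real.log p := Real.log_pos (by exact_mod_cast hp.one_lt)
  have hlq : 0 < Real.log q := Real.log_pos (by exact_mod_cast hq.one_lt)
  rintro ⟨r, hr⟩
  have hrpos : (0:ℝ) < (r:ℝ) := by rw [hr]; positivity
  have hr0 : 0 < r := by exact_mod_cast hrpos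
  have hnum : 0 < r.num := Rat.num_pos.mpr hr0
  obtain ⟨a, ha⟩ : ∃ a : ℕ, r.num = (a:ℤ) := ⟨r.num.toNat, (Int.toNat_of_nonneg hnum.le).symm⟩
  have ha0 : 0 < a := by
    have : (0:ℤ) < (a:ℤ) := ha ▸ hnum
    exact_mod_cast this
  have hr2 : (r:ℝ) = (a:ℝ) / (r.den:ℝ) := by
    rw [Rat.cast_def, ha, Int.cast_natCast]
  have hden : (0:ℝ) < (r.den:ℝ) := by exact_mod_cast r.den_pos
  have h1 : (r.den:ℝ) * Real.log p = (a:ℝ) * Real.log q := by
    have h2 : (a:ℝ) / (r.den:ℝ) = Real.log p / Real.log q := by rw [← hr2, hr]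
    rw [div_eq_div_iff hden.ne' hlq.ne'] at h2
    linarith
  have h3 : Real.log ((p:ℝ) ^ r.den) = Real.log ((q:ℝ) ^ a) := by
    rw [Real.log_pow, Real.log_pow]
    exact h1
  have hp0 : (0:ℝ) < (p:ℝ) ^ r.den := by
    have : (0:ℝ) < (p:ℝ) := by exact_mod_cast hp.pos
    positivity
  have hq0 : (0:ℝ) < (q:ℝ) ^ a := by
    have : (0:ℝ) < (q:ℝ) := by exact_mod_cast hq.pos
    positivity
  have h4 := Real.log_injOn_pos hp0 hq0 h3
  have h5 : p ^ r.den = q ^ a := by exact_mod_cast h4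
  have h6 : p ∣ q ^ a := h5 ▸ dvd_pow_self p r.den_pos.ne'
  have h7 : p ∣ q := hp.dvd_of_dvd_pow h6
  exact hne ((Nat.prime_dvd_prime_iff_eq hp hq).mp h7)

theorem tht_irr {q : ℕ} (hq : q.Prime) (h2 : q ≠ 2) : Irrational (tht q) := by
  have h := irr_log Nat.prime_two hq (Ne.symm h2)
  simpa [tht] using h

theorem tht_ratio {p q : ℕ} (hq : q.Prime) (hp : p.Prime) (hne : q ≠ p) :
    Irrational (tht q / tht p) := by
  have hl2 : Real.log 2 ≠ 0 := (Real.log_pos (by norm_num)).ne'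
  have hlp : Real.log p ≠ 0 := (Real.log_pos (by exact_mod_cast hp.one_lt)).ne'
  have hlq : Real.log q ≠ 0 := (Real.log_pos (by exact_mod_cast hq.one_lt)).ne'
  have h : tht q / tht p = Real.log p / Real.log q := by
    unfold tht
    field_simp
  rw [h]
  exact irr_log hp hq (Ne.symm hne)

theorem II_eq {q : ℕ} (hq : 2 ≤ q) (J : ℕ) : ((II q J : ℕ) : ℤ) = ⌈(J:ℝ) * tht q⌉ := by
  have hx : (J:ℝ) * tht q = Real.logb q ((2 ^ J : ℕ) : ℝ) := by
    unfold tht Real.logb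
    push_cast
    rw [Real.log_pow]
    ring
  have h0 : 0 ≤ (J:ℝ) * tht q := mul_nonneg (Nat.cast_nonneg _) (tht_pos hq).le
  unfold II
  rw [← Real.natCeil_logb_natCast q (2 ^ J), ← hx]
  exact Int.natCast_ceil_eq_ceil h0

theorem yy_eq {q : ℕ} (hq : 2 ≤ q) (J : ℕ) : yy q J = ym (tht q) ((J:ℝ) * tht q) := by
  have hq1 : (1:ℝ) < q := by exact_mod_cast hq
  have hq0 : (0:ℝ) < q := by linarith
  have hlq : 0 < Real.log q := Real.log_pos hq1
  have hl2 : 0 < Real.log 2 := Real.log_pos (by norm_num)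
  unfold yy ym
  have h1 : Real.log 2 / tht q = Real.log q := by
    unfold tht
    field_simp
  rw [h1, ← II_eq hq J]
  have h2 : (2:ℝ) ^ J = Real.exp ((J:ℝ) * Real.log 2) := by
    rw [Real.exp_nat_mul, Real.exp_log (by norm_num)]
  have h3 : (q:ℝ) ^ II q J = Real.exp ((II q J : ℝ) * Real.log q) := by
    rw [Real.exp_nat_mul, Real.exp_log hq0]
  rw [h2, h3, ← Real.exp_sub]
  congr 1
  unfold tht
  push_cast
  field_simp
  ring

end Prh25

/-- row PRH from the uniform pair lemma -/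
theorem prh_row (H : Prh25.PairUStmt) : PRHStmt := by
  intro q p hq hp hq2 hp2 hqp
  obtain ⟨C, hC⟩ := H (Prh25.tht q) (Prh25.tht p) (Prh25.tht_pos hq.two_le) (Prh25.tht_pos hp.two_le)
    (Prh25.tht_irr hq hq2) (Prh25.tht_irr hp hp2) (Prh25.tht_ratio hq hp hqp)
  refine ⟨max C 1, lt_of_lt_of_le one_pos (le_max_right _ _), ?_⟩
  intro W hW s1 s2 A B eps heps
  obtain ⟨T0, hT0⟩ := hC W hW A B eps heps
  refine ⟨T0, fun T hT J hJ => ?_⟩
  have h := hT0 T hT (((J - s1 : ℕ) : ℝ) * Prh25.tht q) (((J - s2 : ℕ) : ℝ) * Prh25.tht p)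
  have hs1 : s1 ≤ J := le_trans (le_max_left _ _) hJ
  have hs2 : s2 ≤ J := le_trans (le_max_right _ _) hJ
  have e1 : ∀ j : ℕ, yy q (J + j * W - s1) =
      Prh25.ym (Prh25.tht q) (((J - s1 : ℕ) : ℝ) * Prh25.tht q + j * W * Prh25.tht q) := by
    intro j
    rw [Prh25.yy_eq hq.two_le]
    congr 1
    have : J + j * W - s1 = (J - s1) + j * W := by omega
    rw [this]
    push_cast
    ring
  have e2 : ∀ j : ℕ, yy p (J + j * W - s2) =
      Prh25.ym (Prh25.tht p) (((J - s2 : ℕ) : ℝ) * Prh25.tht p + j * W * Prh25.tht p) := by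
    intro j
    rw [Prh25.yy_eq hp.two_le]
    congr 1
    have : J + j * W - s2 = (J - s2) + j * W := by omega
    rw [this]
    push_cast
    ring
  simp only [e1, e2]
  refine h.trans ?_
  have hpow : 0 ≤ (max 1 (max |A| |B|)) ^ (-(1/2:ℝ)) :=
    Real.rpow_nonneg (le_trans zero_le_one (le_max_left _ _)) _
  have hT' : (0:ℝ) ≤ T := Nat.cast_nonneg _
  refine mul_le_mul_of_nonneg_right ?_ hT'
  have := mul_le_mul_of_nonneg_right (le_max_left C 1) hpow
  linarith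

end Pool.FD
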